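import Pool.Agent.H159.SSq.Stm

/-!
# Transfer bound for pairs of primitive paths
-/

set_option autoImplicit false

namespace Pool.Agent.Q190.SSq

open Finset Pool.Agent.H159.SSq

def Ag (t : ℕ) (A' A : Finset ℕ) : Prop := ∀ s < t, s ∈ A' ↔ s ∈ A

theorem Ub_congr {t : ℕ} {A' A B' B : Finset ℕ} (hA : Ag t A' A) (hB : Ag t B' B) {r : ℕ}
    (hr : r ≤ t) : Ub A' B' r ↔ Ub A B r := by
  unfold Ub
  have h1 : ∀ x, x ≤ t → pu A' x = pu A x := fun x hx => pu_congr fun s hs => hA s (by omega)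
  have h2 : ∀ x, x ≤ t → po A' x = po A x := fun x hx => po_congr fun s hs => hA s (by omega)
  have h3 : ∀ x, x ≤ t → pu B' x = pu B x := fun x hx => pu_congr fun s hs => hB s (by omega)
  have h4 : ∀ x, x ≤ t → po B' x = po B x := fun x hx => po_congr fun s hs => hB s (by omega)
  constructor
  · rintro ⟨x, hx, h5, h6, h7, h8⟩
    refine ⟨x, hx, (hA x (by omega)).1 h5, (hB x (by omega)).1 h6, ?_, ?_⟩
    · rw [← h1 x (by omega), ← h2 r hr]; exact h7
    · rw [← h3 x (by omega), ← h4 r hr]; exact h8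
  · rintro ⟨x, hx, h5, h6, h7, h8⟩
    refine ⟨x, hx, (hA x (by omega)).2 h5, (hB x (by omega)).2 h6, ?_, ?_⟩
    · rw [h1 x (by omega), h2 r hr]; exact h7
    · rw [h3 x (by omega), h4 r hr]; exact h8

def p1 (A B : Finset ℕ) (r : ℕ) : Prop :=
  1 ≤ r ∧ r - 1 ∈ A ∧ r - 1 ∈ B ∧ r ∉ A ∧ r ∉ B ∧ Ub A B r
def p2 (A B : Finset ℕ) (r : ℕ) : Prop := 1 ≤ r ∧ Ub A B r ∧ ¬ (r ∈ A ↔ r ∈ B)
def p3 (A B : Finset ℕ) (r : ℕ) : Prop := 1 ≤ r ∧ ¬ Ub A B r ∧ ¬ (r ∈ A ∧ r ∈ B)

open Classical in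
noncomputable def cc (p : ℕ → Prop) (t : ℕ) : ℕ := ((range t).filter p).card

open Classical in
theorem cc_succ {p q : ℕ → Prop} {t : ℕ} (h : ∀ r < t, p r ↔ q r) :
    cc p (t + 1) = cc q t + if p t then 1 else 0 := by
  unfold cc
  have h1 : (range t).filter p = (range t).filter q :=
    filter_congr fun r hr => h r (mem_range.1 hr)
  rw [range_add_one, filter_insert, h1]
  split_ifs with h2
  · rw [card_insert_of_notMem (by simp)]
  · rfl

noncomputable def W (κ u v : ℝ) (t : ℕ) (A B : Finset ℕ) : ℝ :=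
  (κ ^ 2) ^ cc (p1 A B) t * u ^ cc (p2 A B) t * v ^ cc (p3 A B) t

open Classical in
noncomputable def ph (κ : ℝ) (t : ℕ) (A B : Finset ℕ) : ℝ :=
  if t - 1 ∈ A ∧ t - 1 ∈ B ∧ Ub A B t then κ else 1

open Classical in
noncomputable def PP (t : ℕ) : Finset (Finset ℕ) := (range t).powerset.filter fun A => 0 ∈ A

noncomputable def T (κ u v : ℝ) (t : ℕ) : ℝ :=
  ∑ A ∈ PP t, ∑ B ∈ PP t, W κ u v t A B * ph κ t A B

theorem sum_PP {t : ℕ} (ht : 1 ≤ t) (F : Finset ℕ → ℝ) :
    ∑ A ∈ PP (t + 1), F A = ∑ A ∈ PP t, (F A + F (insert t A)) := by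
  classical
  unfold PP
  rw [sum_filter, range_add_one, sum_powerset_insert (by simp), sum_filter, ← sum_add_distrib]
  refine sum_congr rfl fun A _ => ?_
  have h1 : (0 ∈ insert t A) ↔ 0 ∈ A := by
    rw [mem_insert]
    constructor
    · rintro (h | h)
      · omega
      · exact h
    · exact Or.inr
  by_cases h : 0 ∈ A
  · rw [if_pos h, if_pos (h1.2 h), if_pos h]
  · rw [if_neg h, if_neg (fun h2 => h (h1.1 h2)), if_neg h, add_zero]

theorem ag_self (t : ℕ) (A : Finset ℕ) : Ag t A A := fun _ _ => Iff.rfl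

theorem ag_insert (t : ℕ) (A : Finset ℕ) : Ag t (insert t A) A := fun s hs => by
  rw [mem_insert]
  constructor
  · rintro (h | h)
    · omega
    · exact h
  · exact Or.inr

open Classical in
theorem W_succ (κ u v : ℝ) {t : ℕ} (ht : 1 ≤ t) {A' A B' B : Finset ℕ} (hA : Ag t A' A)
    (hB : Ag t B' B) : W κ u v (t + 1) A' B' = W κ u v t A B *
      ((if t - 1 ∈ A ∧ t - 1 ∈ B ∧ t ∉ A' ∧ t ∉ B' ∧ Ub A B t then κ ^ 2 else 1) *
      (if Ub A B t ∧ ¬ (t ∈ A' ↔ t ∈ B') then u else 1) *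
      (if ¬ Ub A B t ∧ ¬ (t ∈ A' ∧ t ∈ B') then v else 1)) := by
  have hU : ∀ r, r ≤ t → (Ub A' B' r ↔ Ub A B r) := fun r hr => Ub_congr hA hB hr
  have e1 : cc (p1 A' B') (t + 1) = cc (p1 A B) t +
      if t - 1 ∈ A ∧ t - 1 ∈ B ∧ t ∉ A' ∧ t ∉ B' ∧ Ub A B t then 1 else 0 := by
    rw [cc_succ (q := p1 A B)]
    · congr 1
      refine if_congr ?_ rfl rfl
      unfold p1
      rw [hU t le_rfl, hA (t - 1) (by omega), hB (t - 1) (by omega)]
      constructor
      · rintro ⟨_, h⟩; exact h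
      · intro h; exact ⟨ht, h⟩
    · intro r hr
      unfold p1
      rw [hU r hr.le, hA (r - 1) (by omega), hB (r - 1) (by omega), hA r hr, hB r hr]
  have e2 : cc (p2 A' B') (t + 1) = cc (p2 A B) t +
      if Ub A B t ∧ ¬ (t ∈ A' ↔ t ∈ B') then 1 else 0 := by
    rw [cc_succ (q := p2 A B)]
    · congr 1
      refine if_congr ?_ rfl rfl
      unfold p2
      rw [hU t le_rfl]
      constructor
      · rintro ⟨_, h⟩; exact h
      · intro h; exact ⟨ht, h⟩
    · intro r hr
      unfold p2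
      rw [hU r hr.le, hA r hr, hB r hr]
  have e3 : cc (p3 A' B') (t + 1) = cc (p3 A B) t +
      if ¬ Ub A B t ∧ ¬ (t ∈ A' ∧ t ∈ B') then 1 else 0 := by
    rw [cc_succ (q := p3 A B)]
    · congr 1
      refine if_congr ?_ rfl rfl
      unfold p3
      rw [hU t le_rfl]
      constructor
      · rintro ⟨_, h⟩; exact h
      · intro h; exact ⟨ht, h⟩
    · intro r hr
      unfold p3
      rw [hU r hr.le, hA r hr, hB r hr]
  unfold W
  rw [e1, e2, e3, pow_add, pow_add, pow_add]
  split_ifs <;> simp <;> ring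

theorem ph_le_one {κ : ℝ} (hκ : κ ≤ 1) (t : ℕ) (A B : Finset ℕ) : ph κ t A B ≤ 1 := by
  unfold ph
  split_ifs
  · exact hκ
  · exact le_rfl

theorem ph_ge {κ : ℝ} (hκ : κ ≤ 1) (t : ℕ) (A B : Finset ℕ) : κ ≤ ph κ t A B := by
  unfold ph
  split_ifs
  · exact le_rfl
  · exact hκ

theorem Ub_both {t : ℕ} {A B : Finset ℕ} (h : Ub A B t) :
    Ub (insert t A) (insert t B) (t + 1) := by
  obtain ⟨x, hx, h1, h2, h3, h4⟩ := h
  refine ⟨x, by omega, mem_insert_of_mem h1, mem_insert_of_mem h2, ?_, ?_⟩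
  · rw [po_succ, if_pos (mem_insert_self t A), add_zero,
      pu_congr (fun s hs => ag_insert t A s (by omega)), po_congr (ag_insert t A)]
    exact h3
  · rw [po_succ, if_pos (mem_insert_self t B), add_zero,
      pu_congr (fun s hs => ag_insert t B s (by omega)), po_congr (ag_insert t B)]
    exact h4

theorem W_nonneg {κ u v : ℝ} (hu : 0 ≤ u) (hv : 0 ≤ v) (t : ℕ) (A B : Finset ℕ) :
    0 ≤ W κ u v t A B := by
  unfold W
  positivity

/-- one step -/
theorem step {κ u v : ℝ} (hκ : 1 / 2 ≤ κ) (hκ1 : κ ≤ 1) (hu : 0 ≤ u) (hv : 0 ≤ v) (hv6 : v ≤ 1 / 6)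
    {t : ℕ} (ht : 1 ≤ t) {A B : Finset ℕ} (hA : A ⊆ range t) (hB : B ⊆ range t) :
    W κ u v (t + 1) A B * ph κ (t + 1) A B +
      W κ u v (t + 1) A (insert t B) * ph κ (t + 1) A (insert t B) +
      (W κ u v (t + 1) (insert t A) B * ph κ (t + 1) (insert t A) B +
      W κ u v (t + 1) (insert t A) (insert t B) * ph κ (t + 1) (insert t A) (insert t B)) ≤
    (1 + κ + 2 * u / κ) * (W κ u v t A B * ph κ t A B) := by
  classical
  have hκ0 : 0 < κ := by linarith
  have tA : t ∉ A := fun h => by simpa using hA h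
  have tB : t ∉ B := fun h => by simpa using hB h
  have tA' : t ∈ insert t A := mem_insert_self t A
  have tB' : t ∈ insert t B := mem_insert_self t B
  have hW := W_nonneg (κ := κ) hu hv t A B
  rw [W_succ κ u v ht (ag_self t A) (ag_self t B), W_succ κ u v ht (ag_self t A) (ag_insert t B),
    W_succ κ u v ht (ag_insert t A) (ag_self t B), W_succ κ u v ht (ag_insert t A) (ag_insert t B)]
  simp only [tA, tB, tA', tB', not_true_eq_false, not_false_eq_true, false_and, and_false, true_and,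
    and_true, true_iff, iff_true, if_false, iff_self, false_iff]
  have b1 := ph_le_one hκ1 (t + 1) A B
  have b2 := ph_le_one hκ1 (t + 1) A (insert t B)
  have b3 := ph_le_one hκ1 (t + 1) (insert t A) B
  have b4 := ph_le_one hκ1 (t + 1) (insert t A) (insert t B)
  have hu' : u ≤ u / κ := by rw [le_div_iff₀ hκ0]; nlinarith
  have hl : κ * (1 + κ + 2 * u / κ) = κ + κ ^ 2 + 2 * u := by field_simp
  generalize ph κ (t + 1) A B = q1 at *
  generalize ph κ (t + 1) A (insert t B) = q2 at *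
  generalize ph κ (t + 1) (insert t A) B = q3 at *
  by_cases hU : Ub A B t
  · have b4' : ph κ (t + 1) (insert t A) (insert t B) = κ := by
      unfold ph
      rw [if_pos]
      refine ⟨?_, ?_, Ub_both hU⟩
      · rw [Nat.add_sub_cancel]; exact tA'
      · rw [Nat.add_sub_cancel]; exact tB'
    rw [b4']
    by_cases hP : t - 1 ∈ A ∧ t - 1 ∈ B
    · have hph : ph κ t A B = κ := by unfold ph; rw [if_pos ⟨hP.1, hP.2, hU⟩]
      rw [hph]
      simp only [hP.1, hP.2, hU, and_self, if_true, not_true_eq_false, if_false, false_and, mul_one,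
        one_mul]
      have h1 : κ ^ 2 * q1 + u * q2 + (u * q3 + κ) ≤ κ * (1 + κ + 2 * u / κ) := by
        rw [hl]; nlinarith [sq_nonneg κ]
      nlinarith [mul_le_mul_of_nonneg_left h1 hW]
    · have hph : ph κ t A B = 1 := by
        unfold ph; rw [if_neg]; rintro ⟨h1, h2, _⟩; exact hP ⟨h1, h2⟩
      rw [hph]
      have hc : ¬ (t - 1 ∈ A ∧ t - 1 ∈ B ∧ Ub A B t) := fun h => hP ⟨h.1, h.2.1⟩
      rw [if_neg hc]
      simp only [hU, if_true, not_true_eq_false, if_false, mul_one, one_mul]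
      have h1 : q1 + u * q2 + (u * q3 + κ) ≤ 1 + κ + 2 * u / κ := by
        have : 2 * u / κ = 2 * (u / κ) := by ring
        rw [this]
        nlinarith
      nlinarith [mul_le_mul_of_nonneg_left h1 hW]
  · have hph : ph κ t A B = 1 := by
      unfold ph; rw [if_neg]; rintro ⟨_, _, h1⟩; exact hU h1
    rw [hph]
    simp only [hU, and_false, if_false, not_false_eq_true, if_true, mul_one, one_mul]
    generalize ph κ (t + 1) (insert t A) (insert t B) = q4 at *
    have h1 : v * q1 + v * q2 + (v * q3 + q4) ≤ 1 + κ + 2 * u / κ := by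
      have : 0 ≤ 2 * u / κ := by positivity
      nlinarith
    nlinarith [mul_le_mul_of_nonneg_left h1 hW]

theorem T_succ {κ u v : ℝ} (hκ : 1 / 2 ≤ κ) (hκ1 : κ ≤ 1) (hu : 0 ≤ u) (hv : 0 ≤ v)
    (hv6 : v ≤ 1 / 6) {t : ℕ} (ht : 1 ≤ t) :
    T κ u v (t + 1) ≤ (1 + κ + 2 * u / κ) * T κ u v t := by
  classical
  unfold T
  rw [sum_PP ht, mul_sum]
  refine sum_le_sum fun A hA => ?_
  rw [sum_PP ht, sum_PP ht, mul_sum, ← sum_add_distrib]
  refine sum_le_sum fun B hB => ?_
  exact step hκ hκ1 hu hv hv6 ht (mem_powerset.1 (mem_filter.1 hA).1)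
    (mem_powerset.1 (mem_filter.1 hB).1)

theorem T_one {κ u v : ℝ} : T κ u v 1 = κ := by
  classical
  have h1 : PP 1 = {{0}} := by
    ext A
    simp only [PP, mem_filter, mem_powerset, mem_singleton]
    constructor
    · rintro ⟨h1, h2⟩
      ext x
      simp only [mem_singleton]
      constructor
      · intro h
        have := mem_range.1 (h1 h)
        omega
      · rintro rfl; exact h2
    · rintro rfl
      simp
  unfold T
  rw [h1, sum_singleton, sum_singleton]
  have h2 : ph κ 1 {0} {0} = κ := by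
    unfold ph
    rw [if_pos]
    refine ⟨by simp, by simp, 0, by omega, by simp, by simp, ?_, ?_⟩ <;> decide
  have h3 : ∀ p : ℕ → Prop, ¬ p 0 → cc p 1 = 0 := by
    intro p hp
    unfold cc
    rw [card_eq_zero, filter_eq_empty_iff]
    intro x hx
    have : x = 0 := by simpa using hx
    subst this
    exact hp
  have h4 : W κ u v 1 {0} {0} = 1 := by
    unfold W
    rw [h3 _ (fun h => by have := h.1; omega), h3 _ (fun h => by have := h.1; omega),
      h3 _ (fun h => by have := h.1; omega)]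
    simp
  rw [h2, h4, one_mul]

theorem T_le {κ u v : ℝ} (hκ : 1 / 2 ≤ κ) (hκ1 : κ ≤ 1) (hu : 0 ≤ u) (hv : 0 ≤ v)
    (hv6 : v ≤ 1 / 6) (t : ℕ) : T κ u v (t + 1) ≤ κ * (1 + κ + 2 * u / κ) ^ t := by
  induction t with
  | zero => rw [T_one]; simp
  | succ t ih =>
    have hκ0 : 0 < κ := by linarith
    refine (T_succ hκ hκ1 hu hv hv6 (by omega)).trans ?_
    calc (1 + κ + 2 * u / κ) * T κ u v (t + 1)
        ≤ (1 + κ + 2 * u / κ) * (κ * (1 + κ + 2 * u / κ) ^ t) := by gcongr
      _ = _ := by ring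

theorem PU_card (n : ℕ) (A B : Finset ℕ) : (PU n A B).card = cc (p1 A B) (2 * n) := by
  classical
  unfold cc
  have h : ((range (2 * n)).filter (p1 A B)) = (PU n A B).map ⟨Nat.succ, Nat.succ_injective⟩ := by
    ext r
    simp only [mem_filter, mem_range, mem_map, Function.Embedding.coeFn_mk, PU, p1]
    constructor
    · rintro ⟨h1, h2, h3, h4, h5, h6, h7⟩
      refine ⟨r - 1, ⟨by omega, by omega, h3, h4, ?_, ?_, ?_⟩, by omega⟩
      · rwa [Nat.sub_add_cancel h2]
      · rwa [Nat.sub_add_cancel h2]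
      · rwa [Nat.sub_add_cancel h2]
    · rintro ⟨s, ⟨h1, h2, h3, h4, h5, h6, h7⟩, rfl⟩
      exact ⟨by omega, by omega, h3, h4, h5, h6, h7⟩
  rw [h, card_map]

theorem pairs : S_pairs := by
  classical
  intro n κ u v hκ hκ1 hu hv hv6
  have hκ0 : 0 < κ := by linarith
  have hl : 1 ≤ 1 + κ + 2 * u / κ := by
    have : 0 ≤ 2 * u / κ := by positivity
    linarith
  rcases Nat.eq_zero_or_pos n with rfl | hn
  · have h1 : prims 0 ⊆ {∅} := by
      intro A hA
      have := (mem_filter.1 hA).1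
      simpa using this
    have h2 : ∀ A B : Finset ℕ, κ ^ (2 * (PU 0 A B).card) * u ^ (FR 0 A B).card *
        v ^ (SP 0 A B).card = 1 := by
      intro A B
      simp [PU, FR, SP]
    simp only [h2]
    rw [mul_zero, pow_zero]
    have h3 : (prims 0).card ≤ 1 := (card_le_card h1).trans (by simp)
    have h4 : ((prims 0).card : ℝ) ≤ 1 := by exact_mod_cast h3
    simp only [sum_const, nsmul_eq_mul, mul_one]
    have h5 : (0 : ℝ) ≤ (prims 0).card := by positivity
    nlinarith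
  · have hsub : prims n ⊆ PP (2 * n) := by
      intro A hA
      have h1 := mem_filter.1 hA
      refine mem_filter.2 ⟨h1.1, ?_⟩
      have h2 := h1.2.2.2 1 le_rfl (by omega)
      by_contra h3
      rw [show (1 : ℕ) = 0 + 1 by rfl, pu_succ, if_neg h3] at h2
      simp [pu] at h2
    have h1 : ∀ A B : Finset ℕ, κ ^ (2 * (PU n A B).card) * u ^ (FR n A B).card *
        v ^ (SP n A B).card = W κ u v (2 * n) A B := by
      intro A B
      have f2 : (FR n A B).card = cc (p2 A B) (2 * n) := by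
        unfold cc
        congr 1
        ext r
        simp only [FR, p2, mem_filter]
      have f3 : (SP n A B).card = cc (p3 A B) (2 * n) := by
        unfold cc
        congr 1
        ext r
        simp only [SP, p3, mem_filter]
      unfold W
      rw [PU_card, pow_mul, f2, f3]
    simp only [h1]
    have h2 : ∑ A ∈ prims n, ∑ B ∈ prims n, W κ u v (2 * n) A B ≤
        ∑ A ∈ PP (2 * n), ∑ B ∈ PP (2 * n), W κ u v (2 * n) A B := by
      refine (sum_le_sum fun A _ => sum_le_sum_of_subset_of_nonneg hsub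
        fun B _ _ => W_nonneg hu hv _ _ _).trans ?_
      exact sum_le_sum_of_subset_of_nonneg hsub fun A _ _ =>
        sum_nonneg fun B _ => W_nonneg hu hv _ _ _
    have h3 : κ * ∑ A ∈ PP (2 * n), ∑ B ∈ PP (2 * n), W κ u v (2 * n) A B ≤ T κ u v (2 * n) := by
      unfold T
      rw [mul_sum]
      refine sum_le_sum fun A _ => ?_
      rw [mul_sum]
      refine sum_le_sum fun B _ => ?_
      rw [mul_comm]
      exact mul_le_mul_of_nonneg_left (ph_ge hκ1 _ _ _) (W_nonneg hu hv _ _ _)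
    have h4 := T_le hκ hκ1 hu hv hv6 (2 * n - 1)
    rw [show 2 * n - 1 + 1 = 2 * n by omega] at h4
    have h5 : ∑ A ∈ PP (2 * n), ∑ B ∈ PP (2 * n), W κ u v (2 * n) A B ≤
        (1 + κ + 2 * u / κ) ^ (2 * n - 1) := le_of_mul_le_mul_left (h3.trans h4) hκ0
    refine (h2.trans h5).trans ?_
    exact pow_le_pow_right₀ hl (by omega)

end Pool.Agent.Q190.SSq

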