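import Pool.Agent.H159.SSq.Stm

/-!
# Lower bound for the weighted number of primitive Dyck paths
-/

set_option autoImplicit false

namespace Pool.Agent.Q190.SSq

open Finset Pool.Agent.H159.SSq

/-- number of linear peaks -/
def lp (t : ℕ) (A : Finset ℕ) : ℕ :=
  ((range t).filter fun x => x ∈ A ∧ x + 1 ∉ A ∧ x + 1 < t).card

/-- the weighted sum over all words -/
noncomputable def S (y : ℝ) (t a : ℕ) : ℝ := ∑ A ∈ powersetCard a (range t), y ^ lp t A

theorem sum_pc (t a : ℕ) (F : Finset ℕ → ℝ) :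
    ∑ A ∈ powersetCard (a + 1) (range (t + 1)), F A =
      ∑ A ∈ powersetCard (a + 1) (range t), F A +
        ∑ A ∈ powersetCard a (range t), F (insert t A) := by
  rw [range_add_one, powersetCard_succ_insert (by simp), sum_union, sum_image]
  · intro A hA B hB h
    have h1 : t ∉ A := fun h2 => by simpa using (mem_powersetCard.1 hA).1 h2
    have h2 : t ∉ B := fun h2 => by simpa using (mem_powersetCard.1 hB).1 h2
    have h3 := congrArg (fun s => s.erase t) h
    simpa [erase_insert h1, erase_insert h2] using h3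
  · rw [disjoint_left]
    intro A hA hB
    obtain ⟨B, _, rfl⟩ := mem_image.1 hB
    have := (mem_powersetCard.1 hA).1 (mem_insert_self t B)
    simp at this

theorem lp_insert {t : ℕ} {A : Finset ℕ} (hA : A ⊆ range t) : lp (t + 1) (insert t A) = lp t A := by
  unfold lp
  congr 1
  ext x
  simp only [mem_filter, mem_range, mem_insert, not_or]
  constructor
  · rintro ⟨h1, h2, ⟨h3, h4⟩, h5⟩
    have h6 : x ≠ t := by omega
    exact ⟨by omega, h2.resolve_left h6, h4, by omega⟩
  · rintro ⟨h1, h2, h3, h4⟩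
    exact ⟨by omega, Or.inr h2, ⟨by omega, h3⟩, by omega⟩

/-- a word which does not end in a push -/
theorem lp_mem {t : ℕ} {A : Finset ℕ} (hA : A ⊆ range t) : lp (t + 2) (insert t A) = lp t A + 1 := by
  unfold lp
  have h0 : ((range (t + 2)).filter fun x => x ∈ insert t A ∧ x + 1 ∉ insert t A ∧ x + 1 < t + 2) =
      insert t ((range t).filter fun x => x ∈ A ∧ x + 1 ∉ A ∧ x + 1 < t) := by
    ext x
    simp only [mem_filter, mem_range, mem_insert, not_or]
    constructor
    · rintro ⟨h1, h2, ⟨h3, h4⟩, h5⟩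
      by_cases h6 : x = t
      · exact Or.inl h6
      · exact Or.inr ⟨by omega, h2.resolve_left h6, h4, by omega⟩
    · rintro (rfl | ⟨h1, h2, h3, h4⟩)
      · refine ⟨by omega, Or.inl rfl, ⟨by omega, fun h => ?_⟩, by omega⟩
        have := mem_range.1 (hA h)
        omega
      · exact ⟨by omega, Or.inr h2, ⟨by omega, h3⟩, by omega⟩
  rw [h0, card_insert_of_notMem]
  simp

theorem lp_not {t : ℕ} {A : Finset ℕ} (hA : A ⊆ range t) : lp (t + 2) A = lp (t + 1) A := by
  unfold lp
  congr 1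
  ext x
  simp only [mem_filter, mem_range]
  constructor
  · rintro ⟨h1, h2, h3, h4⟩
    have := mem_range.1 (hA h2)
    exact ⟨by omega, h2, h3, by omega⟩
  · rintro ⟨h1, h2, h3, h4⟩
    exact ⟨by omega, h2, h3, by omega⟩

theorem S_rec (y : ℝ) (t a : ℕ) :
    S y (t + 2) (a + 1) = S y (t + 1) a + S y (t + 1) (a + 1) + (y - 1) * S y t a := by
  have h1 : ∀ A ∈ powersetCard a (range (t + 1)), A ⊆ range (t + 1) := fun A hA =>
    (mem_powersetCard.1 hA).1
  have h2 : ∀ A ∈ powersetCard a (range t), A ⊆ range t := fun A hA => (mem_powersetCard.1 hA).1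
  have h3 : ∀ A ∈ powersetCard (a + 1) (range t), A ⊆ range t := fun A hA =>
    (mem_powersetCard.1 hA).1
  have e1 : S y (t + 2) (a + 1) = ∑ A ∈ powersetCard (a + 1) (range (t + 1)), y ^ lp (t + 2) A +
      S y (t + 1) a := by
    unfold S
    rw [sum_pc (t + 1) a]
    congr 1
    exact sum_congr rfl fun A hA => by rw [lp_insert (h1 A hA)]
  have e2 : ∑ A ∈ powersetCard (a + 1) (range (t + 1)), y ^ lp (t + 2) A =
      ∑ A ∈ powersetCard (a + 1) (range t), y ^ lp (t + 1) A + y * S y t a := by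
    rw [sum_pc t a]
    congr 1
    · exact sum_congr rfl fun A hA => by rw [lp_not (h3 A hA)]
    · unfold S
      rw [mul_sum]
      exact sum_congr rfl fun A hA => by rw [lp_mem (h2 A hA), pow_succ]; ring
  have e3 : S y (t + 1) (a + 1) = ∑ A ∈ powersetCard (a + 1) (range t), y ^ lp (t + 1) A +
      S y t a := by
    unfold S
    rw [sum_pc t a]
    congr 1
    exact sum_congr rfl fun A hA => by rw [lp_insert (h2 A hA)]
  rw [e1, e2, e3]
  ring

/-- the truncated sum -/
noncomputable def g (y : ℝ) (N a b : ℕ) : ℝ := ∑ j ∈ range N, (a.choose j : ℝ) * (b.choose j) * y ^ j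

theorem g_rec (y : ℝ) (N a b : ℕ) :
    g y (N + 1) (a + 1) (b + 1) = g y (N + 1) a (b + 1) + g y (N + 1) (a + 1) b - g y (N + 1) a b +
      y * g y N a b := by
  unfold g
  rw [sum_range_succ', sum_range_succ', sum_range_succ', sum_range_succ', mul_sum]
  have h : ∀ j ∈ range N, ((a + 1).choose (j + 1) : ℝ) * ((b + 1).choose (j + 1)) * y ^ (j + 1) =
      (a.choose (j + 1) : ℝ) * ((b + 1).choose (j + 1)) * y ^ (j + 1) +
      ((a + 1).choose (j + 1) : ℝ) * (b.choose (j + 1)) * y ^ (j + 1) -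
      (a.choose (j + 1) : ℝ) * (b.choose (j + 1)) * y ^ (j + 1) +
      y * ((a.choose j : ℝ) * (b.choose j) * y ^ j) := by
    intro j _
    rw [Nat.choose_succ_succ a j, Nat.choose_succ_succ b j]
    push_cast
    ring
  rw [sum_congr rfl h, sum_add_distrib, sum_sub_distrib, sum_add_distrib]
  simp
  ring

theorem g_stab (y : ℝ) {N a : ℕ} (b : ℕ) (h : a + 1 ≤ N) : g y N a b = g y (a + 1) a b := by
  unfold g
  symm
  refine sum_subset (fun x hx => mem_range.2 ((mem_range.1 hx).trans_le h)) fun x _ hx => ?_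
  rw [Nat.choose_eq_zero_of_lt (by simpa using hx)]
  simp

theorem S_zero (y : ℝ) (t : ℕ) : S y t 0 = 1 := by
  unfold S lp
  simp

theorem S_full (y : ℝ) (t : ℕ) : S y t t = 1 := by
  unfold S
  have h1 : powersetCard t (range t) = {range t} := by
    conv_lhs => rw [show t = (range t).card by simp]
    rw [card_range]
    have := powersetCard_self (range t)
    rwa [card_range] at this
  rw [h1, sum_singleton]
  have h2 : lp t (range t) = 0 := by
    unfold lp
    rw [card_eq_zero, filter_eq_empty_iff]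
    intro x _ h
    exact h.2.1 (mem_range.2 h.2.2)
  rw [h2, pow_zero]

theorem g_zero_left (y : ℝ) (N b : ℕ) : g y (N + 1) 0 b = 1 := by
  unfold g
  rw [sum_range_succ']
  simp

theorem g_zero_right (y : ℝ) (N a : ℕ) : g y (N + 1) a 0 = 1 := by
  unfold g
  rw [sum_range_succ']
  simp

theorem S_eq (y : ℝ) : ∀ t a b : ℕ, a + b = t → S y t a = g y (a + 1) a b := by
  intro t
  induction t using Nat.strong_induction_on with
  | _ t ih =>
    intro a b hab
    rcases Nat.eq_zero_or_pos a with rfl | ha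
    · rw [S_zero, g_zero_left]
    rcases Nat.eq_zero_or_pos b with rfl | hb
    · rw [g_zero_right, ← hab, add_zero, S_full]
    obtain ⟨a, rfl⟩ : ∃ a', a = a' + 1 := ⟨a - 1, by omega⟩
    obtain ⟨b, rfl⟩ : ∃ b', b = b' + 1 := ⟨b - 1, by omega⟩
    obtain ⟨t, rfl⟩ : ∃ t', t = t' + 2 := ⟨t - 2, by omega⟩
    rw [S_rec, ih (t + 1) (by omega) a (b + 1) (by omega), ih (t + 1) (by omega) (a + 1) b (by omega),
      ih t (by omega) a b (by omega), g_rec,
      g_stab y (N := a + 1 + 1) (a := a) (b + 1) (by omega),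
      g_stab y (N := a + 1 + 1) (a := a) b (by omega)]
    ring

/-- the weighted number of balanced words -/
theorem S_lower {κ : ℝ} (hκ : 0 < κ) (m : ℕ) :
    (1 + κ) ^ (2 * m) / ((m : ℝ) + 1) ≤ S (κ ^ 2) (2 * m) m := by
  rw [S_eq (κ ^ 2) (2 * m) m m (by omega), div_le_iff₀ (by positivity)]
  have h1 : (1 + κ) ^ (2 * m) = (∑ j ∈ range (m + 1), (m.choose j : ℝ) * κ ^ j) ^ 2 := by
    rw [mul_comm 2 m, pow_mul, add_comm, add_pow]
    congr 1
    refine sum_congr rfl fun j _ => ?_
    simp; ring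
  rw [h1]
  have h2 := sq_sum_le_card_mul_sum_sq (s := range (m + 1)) (f := fun j => (m.choose j : ℝ) * κ ^ j)
  rw [card_range] at h2
  refine h2.trans (le_of_eq ?_)
  unfold g
  push_cast
  rw [mul_comm]
  congr 1
  refine sum_congr rfl fun j _ => ?_
  rw [← pow_mul]
  ring

/-! ### Rotation -/

/-- the rotated word -/
def rot (N r : ℕ) (A : Finset ℕ) : Finset ℕ := (range N).filter fun x => (r + x) % N ∈ A

/-- number of cyclic peaks -/
def cp (N : ℕ) (A : Finset ℕ) : ℕ := Nat.count (fun x => x % N ∈ A ∧ (x + 1) % N ∉ A) N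

theorem count_per {p : ℕ → Prop} [DecidablePred p] {N : ℕ} (hp : ∀ x, p (N + x) ↔ p x) (r : ℕ) :
    Nat.count p (r + N) = Nat.count p r + Nat.count p N := by
  rw [add_comm r N, Nat.count_add, add_comm]
  congr 1
  congr 1
  funext x
  exact propext (hp x)

theorem count_shift {p : ℕ → Prop} [DecidablePred p] {N : ℕ} (hp : ∀ x, p (N + x) ↔ p x) (r : ℕ) :
    Nat.count (fun x => p (r + x)) N = Nat.count p N := by
  have h1 := Nat.count_add p r N
  have h2 := count_per hp r
  omega

theorem pu_count (A : Finset ℕ) (t : ℕ) : pu A t = Nat.count (· ∈ A) t := by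
  unfold pu
  rw [Nat.count_eq_card_filter_range]

theorem pu_rot {N r : ℕ} {A : Finset ℕ} {t : ℕ} (ht : t ≤ N) :
    pu (rot N r A) t = Nat.count (fun x => (r + x) % N ∈ A) t := by
  rw [pu_count, Nat.count_eq_card_filter_range, Nat.count_eq_card_filter_range]
  congr 1
  apply filter_congr
  intro x hx
  have : x < t := mem_range.1 hx
  simp [rot]
  intro _; omega

theorem exists_rot {m : ℕ} (hm : 1 ≤ m) {A : Finset ℕ} (hA : A ⊆ range (2 * m)) (hc : A.card = m) :
    ∃ r < 2 * m, Dy m (rot (2 * m) r A) := by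
  set N := 2 * m with hN
  have hp : ∀ x, ((N + x) % N ∈ A ↔ x % N ∈ A) := fun x => by rw [Nat.add_mod_left]
  set P : ℕ → ℕ := Nat.count (fun x => x % N ∈ A) with hP
  have hPN : P N = m := by
    rw [hP, Nat.count_eq_card_filter_range, ← hc]
    congr 1
    ext x
    simp only [mem_filter, mem_range]
    constructor
    · rintro ⟨h1, h2⟩; rwa [Nat.mod_eq_of_lt h1] at h2
    · intro h
      have := mem_range.1 (hA h)
      exact ⟨this, by rwa [Nat.mod_eq_of_lt this]⟩
  have hper : ∀ r, P (r + N) = P r + m := fun r => by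
    rw [← hPN]; exact count_per (p := fun x => x % N ∈ A) hp r
  obtain ⟨r, hr, hmin⟩ := exists_min_image (range N) (fun r => (2 * (P r : ℤ) - r))
    ⟨0, mem_range.2 (by omega)⟩
  have hr' := mem_range.1 hr
  have hall : ∀ s : ℕ, (2 * (P r : ℤ) - r) ≤ 2 * (P s : ℤ) - s := by
    intro s
    induction s using Nat.strong_induction_on with
    | _ s ih =>
      rcases Nat.lt_or_ge s N with h | h
      · exact hmin s (mem_range.2 h)
      · have h1 := ih (s - N) (by omega)
        have h2 := hper (s - N)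
        rw [Nat.sub_add_cancel h] at h2
        have h3 : ((s - N : ℕ) : ℤ) = (s : ℤ) - N := by push_cast [h]; ring
        rw [h2]
        push_cast at h1 ⊢
        rw [h3] at h1
        have h4 : (N : ℤ) = 2 * m := by rw [hN]; push_cast; ring
        linarith
  have hpu : ∀ t ≤ N, pu (rot N r A) t = P (r + t) - P r := by
    intro t ht
    rw [pu_rot ht]
    have := Nat.count_add (fun x => x % N ∈ A) r t
    rw [hP]
    omega
  have hmono : ∀ t, P r ≤ P (r + t) := fun t => Nat.count_monotone _ (by omega)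
  refine ⟨r, hr', filter_subset _ _, ?_, ?_⟩
  · rw [hpu N le_rfl, hper]; omega
  · intro t ht
    have h1 := pu_add_po (rot N r A) t
    have h2 := hpu t ht
    have h3 := hall (r + t)
    have h4 := hmono t
    have h5 : ((P (r + t) - P r : ℕ) : ℤ) = (P (r + t) : ℤ) - P r := by push_cast [h4]; ring
    push_cast at h3
    omega

theorem rot_inj {N r : ℕ} (hr : r < N) {A B : Finset ℕ} (hA : A ⊆ range N) (hB : B ⊆ range N)
    (h : rot N r A = rot N r B) : A = B := by
  have key : ∀ y, y < N → (y ∈ A ↔ y ∈ B) := by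
    intro y hy
    have h1 : ∃ x < N, (r + x) % N = y := by
      rcases Nat.lt_or_ge y r with h2 | h2
      · refine ⟨y + N - r, by omega, ?_⟩
        rw [show r + (y + N - r) = y + N by omega, Nat.add_mod_right, Nat.mod_eq_of_lt hy]
      · exact ⟨y - r, by omega, by rw [show r + (y - r) = y by omega, Nat.mod_eq_of_lt hy]⟩
    obtain ⟨x, hx, hxy⟩ := h1
    have h2 : x ∈ rot N r A ↔ x ∈ rot N r B := by rw [h]
    simp only [rot, mem_filter, mem_range, hxy] at h2
    constructor
    · intro h3; exact (h2.1 ⟨hx, h3⟩).2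
    · intro h3; exact (h2.2 ⟨hx, h3⟩).2
  ext y
  constructor
  · intro h1; exact (key y (mem_range.1 (hA h1))).1 h1
  · intro h1; exact (key y (mem_range.1 (hB h1))).2 h1

theorem cp_rot {N r : ℕ} (hN : 0 < N) (A : Finset ℕ) : cp N (rot N r A) = cp N A := by
  unfold cp
  have hp : ∀ x, ((N + x) % N ∈ A ∧ (N + x + 1) % N ∉ A) ↔ (x % N ∈ A ∧ (x + 1) % N ∉ A) := by
    intro x
    rw [Nat.add_mod_left, add_assoc, Nat.add_mod_left]
  rw [← count_shift (p := fun x => x % N ∈ A ∧ (x + 1) % N ∉ A) hp r]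
  congr 1
  funext x
  have h1 : ∀ z, z % N ∈ rot N r A ↔ (r + z) % N ∈ A := by
    intro z
    simp only [rot, mem_filter, mem_range, Nat.mod_lt z hN, true_and]
    rw [Nat.add_mod, Nat.mod_mod, ← Nat.add_mod]
  rw [h1, h1, add_assoc]

theorem cp_le {N : ℕ} (A : Finset ℕ) : cp N A ≤ lp N A + 1 := by
  unfold cp lp
  rcases Nat.eq_zero_or_pos N with rfl | hN
  · simp
  obtain ⟨N, rfl⟩ : ∃ N', N = N' + 1 := ⟨N - 1, by omega⟩
  rw [Nat.count_succ]
  have h1 : Nat.count (fun x => x % (N + 1) ∈ A ∧ (x + 1) % (N + 1) ∉ A) N ≤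
      ((range (N + 1)).filter fun x => x ∈ A ∧ x + 1 ∉ A ∧ x + 1 < N + 1).card := by
    rw [Nat.count_eq_card_filter_range]
    apply card_le_card
    intro x hx
    simp only [mem_filter, mem_range] at hx ⊢
    obtain ⟨h2, h3, h4⟩ := hx
    rw [Nat.mod_eq_of_lt (by omega)] at h3 h4
    exact ⟨by omega, h3, h4, by omega⟩
  split_ifs <;> omega

theorem cp_dyck {m : ℕ} (hm : 1 ≤ m) {A : Finset ℕ} (hA : Dy m A) :
    cp (2 * m) A = ((range (2 * m)).filter fun x => x ∈ A ∧ x + 1 ∉ A).card := by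
  have hlast : 2 * m - 1 ∉ A := by
    intro h
    have h1 := hA.2.2 (2 * m - 1) (by omega)
    have h2 := hA.2.1
    have h3 := pu_succ A (2 * m - 1)
    rw [show 2 * m - 1 + 1 = 2 * m by omega, if_pos h] at h3
    have h4 := pu_add_po A (2 * m - 1)
    omega
  unfold cp
  rw [Nat.count_eq_card_filter_range]
  congr 1
  apply filter_congr
  intro x hx
  have hx' := mem_range.1 hx
  rw [Nat.mod_eq_of_lt hx']
  constructor
  · rintro ⟨h1, h2⟩
    have h3 : x ≠ 2 * m - 1 := fun h => hlast (h ▸ h1)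
    rw [Nat.mod_eq_of_lt (by omega)] at h2
    exact ⟨h1, h2⟩
  · rintro ⟨h1, h2⟩
    have h3 : x ≠ 2 * m - 1 := fun h => hlast (h ▸ h1)
    rw [Nat.mod_eq_of_lt (by omega)]
    exact ⟨h1, h2⟩

/-- number of peaks -/
def np (m : ℕ) (A : Finset ℕ) : ℕ := ((range (2 * m)).filter fun x => x ∈ A ∧ x + 1 ∉ A).card

theorem dyck_lower {κ : ℝ} (hκ : 0 < κ) (hκ1 : κ ≤ 1) {m : ℕ} (hm : 1 ≤ m) :
    κ ^ 2 * (1 + κ) ^ (2 * m) / (2 * m * ((m : ℝ) + 1)) ≤ ∑ D ∈ dycks m, (κ ^ 2) ^ np m D := by
  classical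
  set N := 2 * m with hN
  have hy0 : 0 < κ ^ 2 := by positivity
  have hy1 : κ ^ 2 ≤ 1 := pow_le_one₀ hκ.le hκ1
  have h1 : κ ^ 2 * S (κ ^ 2) N m ≤ ∑ A ∈ powersetCard m (range N), (κ ^ 2) ^ cp N A := by
    unfold S
    rw [mul_sum]
    refine sum_le_sum fun A _ => ?_
    rw [← pow_succ']
    exact pow_le_pow_of_le_one hy0.le hy1 (cp_le A)
  have h2 : ∀ A ∈ powersetCard m (range N), ∃ r < N, Dy m (rot N r A) := fun A hA =>
    exists_rot hm (mem_powersetCard.1 hA).1 (mem_powersetCard.1 hA).2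
  have h3 : ∑ A ∈ powersetCard m (range N), (κ ^ 2) ^ cp N A ≤
      ∑ r ∈ range N, ∑ D ∈ dycks m, (κ ^ 2) ^ np m D := by
    have h4 : ∀ A ∈ powersetCard m (range N), (κ ^ 2) ^ cp N A ≤
        ∑ r ∈ range N, if Dy m (rot N r A) then (κ ^ 2) ^ np m (rot N r A) else 0 := by
      intro A hA
      obtain ⟨r, hr, hD⟩ := h2 A hA
      have h5 := single_le_sum (f := fun r => if Dy m (rot N r A) then (κ ^ 2) ^ np m (rot N r A)
        else 0) (fun r _ => by split_ifs <;> positivity) (mem_range.2 hr)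
      refine le_trans (le_of_eq ?_) h5
      rw [if_pos hD, ← cp_rot (r := r) (by omega) A, cp_dyck hm hD]
      rfl
    refine (sum_le_sum h4).trans ?_
    rw [sum_comm]
    refine sum_le_sum fun r hr => ?_
    rw [← sum_filter]
    have h6 : ∑ A ∈ (powersetCard m (range N)).filter (fun A => Dy m (rot N r A)),
        (κ ^ 2) ^ np m (rot N r A) =
        ∑ D ∈ ((powersetCard m (range N)).filter (fun A => Dy m (rot N r A))).image (rot N r),
          (κ ^ 2) ^ np m D := by
      rw [sum_image]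
      intro A hA B hB h
      have hA' := mem_filter.1 hA
      have hB' := mem_filter.1 hB
      exact rot_inj (mem_range.1 hr) (mem_powersetCard.1 hA'.1).1 (mem_powersetCard.1 hB'.1).1 h
    rw [h6]
    refine sum_le_sum_of_subset_of_nonneg ?_ fun _ _ _ => by positivity
    intro D hD
    obtain ⟨A, hA, rfl⟩ := mem_image.1 hD
    have hA' := (mem_filter.1 hA).2
    exact mem_filter.2 ⟨mem_powerset.2 hA'.1, hA'⟩
  rw [sum_const, card_range, nsmul_eq_mul] at h3
  have h5 := S_lower hκ m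
  have hm0 : (0 : ℝ) < m := by exact_mod_cast hm
  have hN' : (N : ℝ) = 2 * m := by rw [hN]; push_cast; ring
  rw [hN'] at h3
  rw [div_le_iff₀ (by positivity)] at h5
  rw [div_le_iff₀ (by positivity)]
  have h7 : κ ^ 2 * S (κ ^ 2) N m ≤ 2 * m * ∑ D ∈ dycks m, (κ ^ 2) ^ np m D := h1.trans h3
  calc κ ^ 2 * (1 + κ) ^ N ≤ κ ^ 2 * (S (κ ^ 2) N m * (m + 1)) := by gcongr
    _ = (κ ^ 2 * S (κ ^ 2) N m) * (m + 1) := by ring
    _ ≤ (2 * m * ∑ D ∈ dycks m, (κ ^ 2) ^ np m D) * (m + 1) := by gcongr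
    _ = _ := by ring

/-! ### From Dyck paths to primitive paths -/

/-- the primitive path of a Dyck path -/
def up (D : Finset ℕ) : Finset ℕ := insert 0 (D.map ⟨Nat.succ, Nat.succ_injective⟩)

theorem mem_up (D : Finset ℕ) (x : ℕ) : x + 1 ∈ up D ↔ x ∈ D := by
  simp [up]

theorem zero_mem_up (D : Finset ℕ) : 0 ∈ up D := by simp [up]

theorem pu_up (D : Finset ℕ) (t : ℕ) : pu (up D) (t + 1) = pu D t + 1 := by
  induction t with
  | zero => rw [pu_succ, if_pos (zero_mem_up D)]; simp [pu]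
  | succ t ih => rw [pu_succ, ih, pu_succ D]; simp only [mem_up]; omega

theorem up_inj {D E : Finset ℕ} (h : up D = up E) : D = E := by
  ext x; rw [← mem_up, h, mem_up]

theorem prim_up {m : ℕ} {D : Finset ℕ} (hD : Dy m D) : Prim (m + 1) (up D) := by
  refine ⟨?_, ?_, ?_⟩
  · intro x hx
    rcases Nat.eq_zero_or_pos x with rfl | h0
    · simp
    · obtain ⟨x, rfl⟩ : ∃ x', x = x' + 1 := ⟨x - 1, by omega⟩
      have := mem_range.1 (hD.1 ((mem_up D x).1 hx))
      exact mem_range.2 (by omega)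
  · rw [show 2 * (m + 1) = 2 * m + 1 + 1 by ring, pu_up, pu_succ, hD.2.1, if_neg]
    intro h
    have := mem_range.1 (hD.1 h)
    omega
  · intro t ht1 ht2
    obtain ⟨t, rfl⟩ : ∃ t', t = t' + 1 := ⟨t - 1, by omega⟩
    have h1 := pu_up D t
    have h2 := pu_add_po (up D) (t + 1)
    have h3 := pu_add_po D t
    have h4 := hD.2.2 t (by omega)
    omega

theorem pk_up {m : ℕ} (hm : 1 ≤ m) {D : Finset ℕ} (hD : Dy m D) :
    (PK (m + 1) (up D)).card = np m D := by
  unfold PK np
  have h0 : ((range (2 * (m + 1))).filter fun t => t ∈ up D ∧ t + 1 ∉ up D ∧ po (up D) t < pu (up D) t)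
      = ((range (2 * m)).filter fun x => x ∈ D ∧ x + 1 ∉ D).map ⟨Nat.succ, Nat.succ_injective⟩ := by
    ext x
    rcases Nat.eq_zero_or_pos x with rfl | h0
    · constructor
      · intro h
        have h1 := (mem_filter.1 h).2.2.2
        simp [pu, po] at h1
      · intro h
        obtain ⟨z, _, h1⟩ := mem_map.1 h
        exact absurd h1 (Nat.succ_ne_zero z)
    · obtain ⟨x, rfl⟩ : ∃ x', x = x' + 1 := ⟨x - 1, by omega⟩
      simp only [mem_filter, mem_range, mem_map, Function.Embedding.coeFn_mk, Nat.succ_eq_add_one,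
        mem_up]
      constructor
      · rintro ⟨h1, h2, h3, h4⟩
        exact ⟨x, ⟨mem_range.1 (hD.1 h2), h2, h3⟩, rfl⟩
      · rintro ⟨z, ⟨h1, h2, h3⟩, h4⟩
        have h5 : z = x := by omega
        subst h5
        refine ⟨by omega, h2, h3, ?_⟩
        have h6 := pu_up D z
        have h7 := pu_add_po (up D) (z + 1)
        have h8 := pu_add_po D z
        have h9 := hD.2.2 z (by omega)
        omega
  rw [h0, card_map]

theorem Zlow : S_Z := by
  classical
  intro n κ hn hκ hκ1
  obtain ⟨m, rfl⟩ : ∃ m, n = m + 1 := ⟨n - 1, by omega⟩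
  rcases Nat.eq_zero_or_pos m with rfl | hm
  · have h1 : ({0} : Finset ℕ) ∈ prims 1 := by
      refine mem_filter.2 ⟨mem_powerset.2 (by simp), by simp, by decide, ?_⟩
      intro t h1 h2
      have : t = 1 := by omega
      subst this; decide
    have h2 := single_le_sum (f := fun A => κ ^ (2 * (PK 1 A).card)) (s := prims 1)
      (fun A _ => by positivity) h1
    have h3 : (PK 1 {0}).card = 0 := by decide
    rw [h3] at h2
    simp only [zero_add, mul_zero, pow_zero] at h2 ⊢
    refine le_trans ?_ h2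
    norm_num
    rw [abs_of_pos hκ]
    exact hκ1
  · have h1 := dyck_lower hκ hκ1 hm
    have h2 : ∑ D ∈ dycks m, (κ ^ 2) ^ np m D ≤ ∑ A ∈ prims (m + 1), κ ^ (2 * (PK (m + 1) A).card) := by
      have h3 : ∑ D ∈ dycks m, (κ ^ 2) ^ np m D =
          ∑ A ∈ (dycks m).image up, κ ^ (2 * (PK (m + 1) A).card) := by
        rw [sum_image (fun D _ E _ h => up_inj h)]
        refine sum_congr rfl fun D hD => ?_
        rw [pk_up hm (mem_filter.1 hD).2, pow_mul]
      rw [h3]
      refine sum_le_sum_of_subset_of_nonneg ?_ fun _ _ _ => by positivity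
      intro A hA
      obtain ⟨D, hD, rfl⟩ := mem_image.1 hA
      have h4 := prim_up (mem_filter.1 hD).2
      exact mem_filter.2 ⟨mem_powerset.2 h4.1, h4⟩
    refine le_trans ?_ (h1.trans h2)
    have hm1 : (1 : ℝ) ≤ m := by exact_mod_cast hm
    rw [show 2 * (m + 1) - 2 = 2 * m by omega]
    push_cast
    refine div_le_div_of_nonneg_left (by positivity) (by positivity) ?_
    nlinarith [sq_nonneg ((m : ℝ) - 1)]

end Pool.Agent.Q190.SSq

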